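import Pool.Agent.H752.GM.MainT

/-!
# How many oracles make a level of the bounded-nondeterminism hierarchy collapse?

Consider the chain `NP_(log n) ⊆ NP_n ⊆ NP_(n ^ 2) ⊆ ...` relative to an oracle `A`, where the index
bounds the number of the guessed bits. For every gauge `f` and every inclusion of the chain, the
set of the oracles for which the inclusion is an equality is a null set for `f` if and only if, for
every `ε > 0`, `f N ≤ 2 ^ ((log N) ^ ε)` for infinitely many `N`. The same holds for the set of the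
oracles for which at least one of the inclusions is an equality, and for every set of oracles
between the set of the `A` with `P = PSPACE` relative to `A` and this set.
-/

namespace Pool.Agent.Results.MP_cd574d_lc.GaugeChain

open Pool.Agent.NPC Pool.Agent.H620R2.Gauge Pool.Agent.H752.GM Filter

theorem result (f : ℕ → ℝ) :
    (∀ O : Set Oracle, (∀ A : Oracle, (∀ L, IsPSPACE A L → IsP A L) → A ∈ O) → O ⊆ ChainEq →
      (Null f O ↔
        ∀ ε : ℝ, 0 < ε → ∃ᶠ N : ℕ in atTop, f N ≤ 2 ^ (Real.logb 2 N) ^ ε)) ∧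
    (∀ k : ℕ, 1 ≤ k → (Null f {A | ∀ L, IsNPg (fun n => n ^ (k + 1)) A L →
        IsNPg (fun n => n ^ k) A L} ↔
      ∀ ε : ℝ, 0 < ε → ∃ᶠ N : ℕ in atTop, f N ≤ 2 ^ (Real.logb 2 N) ^ ε)) ∧
    (Null f {A | ∀ L, IsNPg (fun n => n) A L → IsNPg (Nat.clog 2) A L} ↔
      ∀ ε : ℝ, 0 < ε → ∃ᶠ N : ℕ in atTop, f N ≤ 2 ^ (Real.logb 2 N) ^ ε) ∧
    (Null f ChainEq ↔
      ∀ ε : ℝ, 0 < ε → ∃ᶠ N : ℕ in atTop, f N ≤ 2 ^ (Real.logb 2 N) ^ ε) :=
  chain_results f

end Pool.Agent.Results.MP_cd574d_lc.GaugeChain
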