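import Pool.Agent.H611R3.AltNeg

/-!
# MP_cd574d_lc: a hierarchy in the number of guesses, for circuits with few NOT gates

`GuessNeg g s K F`: the predicate `F` on bit strings is decided by guessing `g` bits `z` and
evaluating a function `f z`, which is computed by at most `s` AND and OR gates from constants, the
input bits `x` and the wires of one of finitely many circuits `C i` which read only `x` and contain
few non-monotone gates (arbitrary gates, of arbitrary fan-in, for instance NOT gates): the sum over
all `i` of `∏ (a + 1) - 1`, the product ranging over these gates of `C i`, `a` being the fan-in, is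
less than `K`. How `f z` depends on `z` is arbitrary. For instance,
`K = 2 ^ t' * (2 ^ t - 1) + 1` if there are `t` NOT gates, which may be fed by gates that depend
on `x` and on `t'` of the guessed bits, if all other gates are monotone in `x`. `Guess g s F` is
the special case of monotone circuits.

`SomeAllCliques M m v k`: one of `M` given lists of `m` graphs on `v` vertices consists of graphs
with cliques with `k` vertices.

(1) The number of guesses needed: `g` guesses, fewer than `2^(r-1)` gates and `K ≤ M` do not suffice
for `SomeAllCliques M m (40000 r^14) (r^2)` unless `2^g ≥ (200 r^6)^((r+2) m)`, whatever `m` is.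

(2) The hierarchy: for every `r ≥ 2`, every `M` and every `g` with `2^g ≥ (200 r^6)^(r+2)` there is
`m ≤ g` such that `SomeAllCliques M m (40000 r^14) (r^2)` can be decided with
`log M + 1 + 6 r g` guesses and monotone circuits with `m r^4` gates, but not with `g` guesses,
fewer than `2^(r-1)` gates and `K ≤ M`.
-/

namespace Pool.Agent.Results.MP_cd574d_lc.GuessNegations

open Pool.Agent.H611R2 Pool.Agent.H611R3

theorem result :
    (∀ M m r s K g : ℕ, 1 ≤ m → 2 ≤ r → 2 * s < 2 ^ r → K ≤ M →
      2 ^ g < ((200 * r ^ 6) ^ (r + 2)) ^ m →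
      ¬ GuessNeg g s K (SomeAllCliques M m (40000 * r ^ 14) (r ^ 2))) ∧
    (∀ M r g : ℕ, 1 ≤ M → 2 ≤ r → (200 * r ^ 6) ^ (r + 2) ≤ 2 ^ g →
      ∃ m, 1 ≤ m ∧ m ≤ g ∧
        Guess (Nat.size M + 6 * r * g) (m * r ^ 4)
          (SomeAllCliques M m (40000 * r ^ 14) (r ^ 2)) ∧
        ∀ s K, 2 * s < 2 ^ r → K ≤ M →
          ¬ GuessNeg g s K (SomeAllCliques M m (40000 * r ^ 14) (r ^ 2))) := by
  have hcv : ∀ r : ℕ, 2 ≤ r → r ^ 2 ≤ 40000 * r ^ 14 := fun r hr => by
    calc r ^ 2 ≤ r ^ 14 := Nat.pow_le_pow_right (by omega) (by omega)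
      _ ≤ 40000 * r ^ 14 := by omega
  constructor
  · intro M m r s K g hm hr hs hK hg h
    exact guess_lower hr hs hg (guess_transfer hm (by nlinarith) (hcv r hr) h hK)
  · intro M r g hM hr hg
    obtain ⟨m, hm1, hmg, hup, hlow⟩ := guess_hierarchy hr hg
    refine ⟨m, hm1, hmg, guess_big hM le_rfl hup, fun s K hs hK h => ?_⟩
    exact hlow _ hs (guess_transfer hm1 (by nlinarith) (hcv r hr) h hK)

end Pool.Agent.Results.MP_cd574d_lc.GuessNegations
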