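import Pool.Agent.H554R2.Rnd.Cov

/-!
# A hierarchy of guess bits in time `k n`

In time `k n` and space `o(n)`, a constant number (depending only on `k`) of additional guess bits
cannot be avoided: for every `k` there is `C` such that for every `d` there are functions of `n`
Boolean variables which are disjunctions of `C d` functions computed by read-once branching programs
with `O(n)` nodes and a fixed order of the variables (so `log₂ C + log₂ d` bits are guessed and the
input is then read once), and which are not disjunctions of `d` functions computed by branching
programs of length `k n` with fewer than `2 ^ (n / D)` nodes.  More generally no probability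
distribution on sound programs of this length and size accepts all the inputs with probability at
least `1 / d`.

The lemmas were proved together with helper99, helper375 and helper819 (this part), helper19,
helper77, helper79, helper129, helper140, helper227, helper233, helper237, helper338, helper406,
helper532, helper642, helper693, helper737, helper880, helper903 (partition of the inputs, random
partitions and coefficients), helper403, helper415 and helper439 (the model of this for
deterministic programs).
-/

set_option autoImplicit false

namespace Pool.Agent.Results.MP_cd574d_lc.LinearTimeGuesses

open Pool.Agent.H554R2.Sem Pool.Agent.H554R2.Coin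

/-- For every `k` there is a constant `C` such that for every `d ≥ 1` there is a constant `D` such
that for all `n ≥ D` there are `C d` functions `q j` of `n` Boolean variables with the following
properties.

* Each `q j` is computed by a deterministic program with at most `D n` nodes, which on all inputs
  queries the same variables in the same order, each of them at most once.
* Let `f` be the disjunction of the functions `q j`.  For every finite family of deterministic
  programs `P ω` with fewer than `2 ^ (n / D)` nodes which output `true` only on inputs with
  `f x = true` there is an input `x` with `f x = true` such that less than one `d`-th of the programs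
  output `true` after at most `k n` queries.  In particular `d` such programs never suffice: for
  `Ω = Fin d` none of them outputs `true` on `x` after at most `k n` queries. -/
theorem result (k : ℕ) : ∃ C : ℕ, 0 < C ∧ ∀ d : ℕ, 1 ≤ d → ∃ D : ℕ, 0 < D ∧ ∀ n ≥ D,
    ∃ q : Fin (C * d) → Pt n → Bool,
      (∀ j, ∃ (U : BP (Fin n) Bool) (l : List (Fin n)), Fintype.card U.State ≤ D * n ∧ l.Nodup ∧
        ∀ x : Pt n, U.Comp x l (q j x)) ∧
      ∀ (Ω : Type) [Fintype Ω] [Nonempty Ω] (P : Ω → BP (Fin n) Bool),
        (∀ ω, Fintype.card (P ω).State < 2 ^ (n / D)) →
        (∀ ω x, (∃ l, (P ω).Comp x l true) → ∃ j, q j x = true) →
        ∃ x, (∃ j, q j x = true) ∧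
          d * Nat.card {ω // ∃ l, (P ω).Comp x l true ∧ l.length ≤ k * n} < Nat.card Ω :=
  Pool.Agent.H554R2.Rnd.cov_final k

end Pool.Agent.Results.MP_cd574d_lc.LinearTimeGuesses
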