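import Pool.Agent.H522R3.ND.Bounds
import Pool.Agent.H522R3.ND.Trade

set_option autoImplicit false

/-!
# The number of guesses of negation-symmetric nondeterministic networks

A network reads a `k`-CNF over the variables `X` (one input for each possible clause) and guessed values; its
other gates compute arbitrary functions of the multiset of their incoming values, in any set `K`.  A group `D`
of negation patterns acts on the clause inputs and, by `σ`, on the names of the guess inputs, and extends to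
automorphisms of the network.  The number `g` of guess inputs moved by `σ` decides about the size of the
network: each of them is worth half a bit.
-/

namespace Pool.Agent.Results.MP_cd574d_lc.SymmetricGuesses

open Pool.Agent.H30R2.NS (Clause Satisfies Sat neg)
open Pool.Agent.H30R2.PS (Net)
open H522R3.ND

lemma satOn_of_oddSat {k : ℕ} {V X : Type} (ι : V → X) (Φ : Set (Clause k X)) (h : OddSat Φ) :
    SatOn ι Φ := by
  obtain ⟨x, hx⟩ := h
  refine ⟨fun v => x (ι v), fun c hc => ?_⟩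
  have h1 : Odd ((Finset.univ : Finset (Fin k)).filter fun l => x (mapc ι c l).1 = (mapc ι c l).2).card :=
    hx _ hc
  obtain ⟨l, hl⟩ := Finset.card_pos.mp h1.pos
  rw [Finset.mem_filter] at hl
  exact ⟨l, hl.2⟩

lemma sat_of_satOn {k : ℕ} {V X : Type} (ι : V ↪ X) (Φ : Set (Clause k X))
    (hr : ∀ c ∈ Φ, ∀ l, (c l).1 ∈ Set.range ι) (h : SatOn ι Φ) : Sat Φ := by
  obtain ⟨x, hx⟩ := h
  refine ⟨ext0 ι x, fun c hc => ?_⟩
  obtain ⟨c', rfl⟩ := mapc_mem ι c (hr c hc)
  obtain ⟨l, hl⟩ := hx c' hc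
  refine ⟨l, ?_⟩
  show ext0 ι x (ι (c' l).1) = (c' l).2
  rw [ext0_apply]
  exact hl

lemma not_fooled {k M : ℕ} {V X Y K Gt : Type} [Fintype Gt] (ι : V ↪ X) (one zero : K)
    (N : Net (Clause k X ⊕ Y) K Gt) (Acc : ((Y → K) → K) → Prop)
    (hdec : ∀ Φ : Set (Clause k X), Φ.Finite → Φ.ncard ≤ M →
      (Acc (fun y => N.eval (data one zero Φ y)) ↔ SatOn ι Φ)) : ¬ Fooled ι M one zero N := by
  rintro ⟨Φ0, Φ1, h0, h1, hr, ho, hu, hy⟩
  have e : (fun y => N.eval (data one zero Φ0 y)) = fun y => N.eval (data one zero Φ1 y) := funext hy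
  have h2 := (hdec Φ0 h0.1 h0.2).mpr (satOn_of_oddSat ι Φ0 ho)
  rw [e] at h2
  exact hu (sat_of_satOn ι Φ1 (fun c hc => hr c (Or.inr hc)) ((hdec Φ1 h1.1 h1.2).mp h2))

theorem result :
    -- lower bound for `3`-SAT: at most `g` moved guess inputs, `2 ^ r` symmetries
    (∀ (r g : ℕ) (X V Y K Gt : Type) [Fintype Gt] (ι : V ↪ X) (D : AddSubgroup (V → ZMod 2)),
      Nat.card D = 2 ^ r → ∀ σ : D → Equiv.Perm Y, (∀ a b, σ (a + b) = σ a * σ b) →
      {y | ∃ a, σ a y ≠ y}.encard ≤ g → ∀ (one zero : K) (N : Net (Clause 3 X ⊕ Y) K Gt),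
      (∀ a : D, SymAt N (ext0 ι a.1) (σ a)) → ∀ Acc : ((Y → K) → K) → Prop,
      (∀ Φ : Set (Clause 3 X), Φ.Finite → Φ.ncard ≤ 4 * (r + 1) →
        (Acc (fun y => N.eval (data one zero Φ y)) ↔ SatOn ι Φ)) →
      2 ^ ((r - g / 2) / 2000) ≤ Fintype.card Gt) ∧
    -- lower bound for `k`-SAT
    (∃ C : ℝ, ∀ (k r g : ℕ), 3 ≤ k → k ≤ r - g / 2 →
      ∀ (X V Y K Gt : Type) [Fintype Gt] (ι : V ↪ X) (D : AddSubgroup (V → ZMod 2)),
      Nat.card D = 2 ^ r → ∀ σ : D → Equiv.Perm Y, (∀ a b, σ (a + b) = σ a * σ b) →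
      {y | ∃ a, σ a y ≠ y}.encard ≤ g → ∀ (one zero : K) (N : Net (Clause k X ⊕ Y) K Gt),
      (∀ a : D, SymAt N (ext0 ι a.1) (σ a)) → ∀ Acc : ((Y → K) → K) → Prop,
      (∀ Φ : Set (Clause k X), Φ.Finite → Φ.ncard ≤ 2 ^ (k - 1) * (r + 1) →
        (Acc (fun y => N.eval (data one zero Φ y)) ↔ SatOn ι Φ)) →
      (2 : ℝ) ^ ((1 - C * (Real.log k ^ 2 / k)) * ((r - g / 2 : ℕ) : ℝ)) ≤ Fintype.card Gt) ∧
    -- upper bound: `2 |W|` moved guess inputs, all symmetries
    (∀ (k : ℕ) (W U X : Type) [Fintype W] [DecidableEq W] [Fintype U] [DecidableEq U] (ι : W ⊕ U → X),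
      ∃ (Gt : Type) (_ : Fintype Gt) (N : Net (Clause k X ⊕ (W × ZMod 2)) Bool Gt),
        (∀ a : X → ZMod 2, SymAt N a (lit fun w => a (ι (Sum.inl w)))) ∧
        (∀ Φ, (∃ y, N.eval (data true false Φ y) = true) ↔ SatOn ι Φ) ∧
        Nat.card Gt = 2 ^ Fintype.card U * (2 * (2 * (Fintype.card W + Fintype.card U)) ^ k +
          3 * (Fintype.card W + Fintype.card U) + 1) + 1) ∧
    -- `m` guess inputs can be removed at the cost of a factor `2 ^ m`
    (∀ (k : ℕ) (X Y Z Gt : Type) [Fintype Gt] [Fintype Z] (N : Net (Clause k X ⊕ (Y ⊕ Z)) Bool Gt),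
      ∃ (Gt' : Type) (_ : Fintype Gt') (N' : Net (Clause k X ⊕ Y) Bool Gt'),
        (∀ a s t, SymAt N a (Equiv.sumCongr s t) → SymAt N' a s) ∧
        (∀ Φ, (∃ y, N'.eval (data true false Φ y) = true) ↔ ∃ y, N.eval (data true false Φ y) = true) ∧
        Fintype.card Gt' = 2 ^ Fintype.card Z * Fintype.card Gt + 1) := by
  classical
  refine ⟨?_, ?_, ?_, ?_⟩
  · intro r g X V Y K Gt _ ι D hD σ hσ hg one zero N hN Acc hdec
    by_contra hlt
    push Not at hlt
    exact not_fooled ι one zero N Acc hdec (three_bound ι D hD σ hσ hg one zero N hN hlt)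
  · obtain ⟨C, _, hC⟩ := seth_bound
    refine ⟨C, ?_⟩
    intro k r g hk hkr X V Y K Gt _ ι D hD σ hσ hg one zero N hN Acc hdec
    by_contra hlt
    push Not at hlt
    exact not_fooled ι one zero N Acc hdec (hC k r g hk hkr X V Y K Gt ι D hD σ hσ hg one zero N hN hlt)
  · intro k W U X _ _ _ _ ι
    refine ⟨_, inferInstance, trade ι (fun t => decide (0 < t)), fun a => trade_sym ι _ a, fun Φ => ?_,
      trade_card⟩
    rw [trade_exists]
    unfold SatOn
    refine exists_congr fun x => forall_congr' fun c => imp_congr_right fun _ => ?_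
    rw [decide_eq_true_iff, Finset.card_pos]
    constructor
    · rintro ⟨l, hl⟩
      rw [Finset.mem_filter] at hl
      exact ⟨l, hl.2⟩
    · rintro ⟨l, hl⟩
      exact ⟨l, Finset.mem_filter.mpr ⟨Finset.mem_univ _, hl⟩⟩
  · intro k X Y Z Gt _ _ N
    obtain ⟨N', h1, h2⟩ := remove N
    refine ⟨_, inferInstance, N', h1, h2, ?_⟩
    rw [Fintype.card_option, Fintype.card_prod, Fintype.card_fun, Fintype.card_bool]

end Pool.Agent.Results.MP_cd574d_lc.SymmetricGuesses
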